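import Pool.Agent.Lib.MP_666dc0_nt.TL.Defs

/-!
# TL, B1: points
-/

open NumberField IsDedekindDomain TensorProduct LaurentPolynomial
open scoped NumberField TensorProduct

namespace Pool.Agent.Lib.MP_666dc0_nt.TL

section OverB

variable {B O R Γ : Type} [CommRing B] [CommRing O] [HopfAlgebra B O] [CommRing R] [Algebra B R]
  [Group Γ]

theorem lift_eq_productMap (x y : O →ₐ[B] R) :
    Algebra.TensorProduct.lift x y (fun _ _ => Commute.all _ _) =
      Algebra.TensorProduct.productMap x y := by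
  ext f
  · simp
  · simp

theorem hom_mul (x y : OverB.Pts B O R) : (x * y).hom = mulPt x.hom y.hom := by
  change (Algebra.TensorProduct.lift x.hom y.hom (fun _ _ => Commute.all _ _)).comp
    (Bialgebra.comulAlgHom B O) = _
  rw [lift_eq_productMap]
  rfl

theorem hom_onPts (A : OverB.HopfAction B Γ O) (γ : Γ) (x : OverB.Pts B O R) :
    (A.onPts R γ x).hom = actPt A γ x.hom := rfl

theorem isInv_iff (A : OverB.HopfAction B Γ O) (σ : Γ) (f : O) : IsInv A σ f ↔ f ∈ A.inv σ := by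
  rw [OverB.HopfAction.mem_inv]
  constructor
  · intro h R _ _ x g
    have h1 := h R x.hom (g * (A.onPts R σ x)⁻¹).hom
    rw [← hom_mul, ← hom_onPts, ← hom_mul, ← mul_assoc, inv_mul_cancel_right] at h1
    exact h1
  · intro h R _ _ x g
    have h1 := h R ⟨x⟩ (⟨g⟩ * A.onPts R σ ⟨x⟩)
    rw [← mul_assoc, mul_inv_cancel_right, hom_mul, hom_mul, hom_onPts] at h1
    exact h1

/-- The homomorphism to the L-group given by a cocycle. -/
noncomputable def toL {A : OverB.HopfAction B Γ O} {c : Γ → (O →ₐ[B] R)} (hc : IsLHom A c) :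
    Γ →* A.LGroup R :=
  MonoidHom.mk' (fun γ => ⟨⟨c γ⟩, γ⟩) fun γ δ => by
    refine SemidirectProduct.ext ?_ rfl
    apply OverB.Pts.ext
    rw [SemidirectProduct.mul_left, hom_mul, hom_onPts]
    exact hc γ δ

end OverB

section OverQ

variable {O R Γ : Type} [CommRing O] [HopfAlgebra ℚ O] [CommRing R] [Algebra ℚ R] [Group Γ]

theorem hom_mulQ (x y : Pts O R) : (x * y).hom = mulPt x.hom y.hom := by
  change (Algebra.TensorProduct.lift x.hom y.hom (fun _ _ => Commute.all _ _)).comp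
    (Bialgebra.comulAlgHom ℚ O) = _
  rw [lift_eq_productMap]
  rfl

/-- The action, as an action in the sense of the files over `ℚ`. -/
def toQ (A : OverB.HopfAction ℚ Γ O) : HopfAction Γ O := ⟨A.act, A.comul_act, A.counit_act⟩

theorem hom_onPtsQ (A : OverB.HopfAction ℚ Γ O) (γ : Γ) (x : Pts O R) :
    ((toQ A).onPts R γ x).hom = actPt A γ x.hom := rfl

theorem isInvQ_iff (A : OverB.HopfAction ℚ Γ O) (σ : Γ) (f : O) :
    IsInv A σ f ↔ f ∈ (toQ A).inv σ := by
  rw [HopfAction.mem_inv]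
  constructor
  · intro h R _ _ x g
    have h1 := h R x.hom (g * ((toQ A).onPts R σ x)⁻¹).hom
    rw [← hom_mulQ, ← hom_onPtsQ, ← hom_mulQ, ← mul_assoc, inv_mul_cancel_right] at h1
    exact h1
  · intro h R _ _ x g
    have h1 := h R ⟨x⟩ (⟨g⟩ * (toQ A).onPts R σ ⟨x⟩)
    rw [← mul_assoc, mul_inv_cancel_right, hom_mulQ, hom_mulQ, hom_onPtsQ] at h1
    exact h1

theorem isLHom_of_hom (A : OverB.HopfAction ℚ Γ O) (r : Γ →* (toQ A).LGroup R)
    (hr : ∀ γ, (r γ).right = γ) : IsLHom A (fun γ => (r γ).left.hom) := by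
  intro γ δ
  change (r (γ * δ)).left.hom = _
  rw [map_mul, SemidirectProduct.mul_left, hom_mulQ, hr γ, hom_onPtsQ]

end OverQ

end Pool.Agent.Lib.MP_666dc0_nt.TL
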