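import Pool.Agent.Lib.MP_666dc0_nt.TL.B1

/-!
# TL, B2: Levi subgroups of the dual group, coefficients, detection
-/

open NumberField IsDedekindDomain TensorProduct LaurentPolynomial
open scoped NumberField TensorProduct

namespace Pool.Agent.Lib.MP_666dc0_nt.TL

section Levi

variable {O₁ O' R : Type} [CommRing O₁] [HopfAlgebra ℚ O₁] [CommRing O'] [HopfAlgebra ℚ O']
  [CommRing R] [Algebra ℚ R]

theorem hom_incl (π : O₁ →ₐc[ℚ] O') (h : Pts O' R) : (Pts.incl π h).hom = inclPt π h.hom := rfl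

theorem hom_cochar (ν : O₁ →ₐc[ℚ] ℚ[T;T⁻¹]) (t : Rˣ) :
    (Pts.cochar ν t : Pts O₁ R).hom = cocharPt ν t := rfl

theorem coef_eq (π : O₁ →ₐc[ℚ] O') (ν : O₁ →ₐc[ℚ] ℚ[T;T⁻¹]) {K : Type} [Field K] [CharZero K]
    (m : Pts O' K) (f : O₁) (r : ℤ) : TP.coef π ν m f r = coefPt π ν m.hom f r := by
  unfold TP.coef coefPt
  rw [hom_mulQ]
  rfl

theorem cent_iff (π : O₁ →ₐc[ℚ] O') (ν : O₁ →ₐc[ℚ] ℚ[T;T⁻¹]) (h : IsCent π ν) (R : Type)
    [CommRing R] [Algebra ℚ R] (g : Pts O₁ R) : (∃ h : Pts O' R, Pts.incl π h = g) ↔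
    ∀ (S : Type) [CommRing S] [Algebra ℚ S] (ψ : R →ₐ[ℚ] S) (t : Sˣ),
      Commute (Pts.map ψ g) (Pts.cochar ν t) := by
  have h1 : (∃ h : Pts O' R, Pts.incl π h = g) ↔ ∃ h : O' →ₐ[ℚ] R, inclPt π h = g.hom := by
    constructor
    · rintro ⟨x, rfl⟩
      exact ⟨x.hom, rfl⟩
    · rintro ⟨x, hx⟩
      exact ⟨⟨x⟩, Pts.ext hx⟩
  rw [h1, h R g.hom]
  constructor
  · intro h2 S _ _ ψ t
    refine Pts.ext ?_
    rw [hom_mulQ, hom_mulQ]
    exact h2 S ψ t
  · intro h2 S _ _ ψ t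
    have h3 := congrArg Pts.hom (h2 S ψ t).eq
    rw [hom_mulQ, hom_mulQ] at h3
    exact h3

variable {B O Γ : Type} [CommRing B] [IsDomain B] [IsPrincipalIdealRing B] [Algebra B ℚ]
  [IsFractionRing B ℚ] [CommRing O] [HopfAlgebra B O] [Group Γ]

theorem IsLeviHat.isLevi {A : OverB.HopfAction B Γ O} {A' : OverB.HopfAction ℚ Γ O'}
    {π : (ℚ ⊗[B] O) →ₐc[ℚ] O'} {ν : (ℚ ⊗[B] O) →ₐc[ℚ] ℚ[T;T⁻¹]} (h : IsLeviHat A A' π ν) :
    Pool.Agent.Lib.MP_666dc0_nt.IsLevi (IG.baseA A) (toQ A') π ν where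
  surj := h.surj
  act γ f := by
    induction f using TensorProduct.induction_on with
    | zero => rw [map_zero, map_zero, map_zero]
    | add x y hx hy => rw [map_add, map_add, map_add, map_add, hx, hy]
    | tmul q f =>
      have h1 : ∀ g : O, (q ⊗ₜ[B] g : ℚ ⊗[B] O) = q • (1 ⊗ₜ[B] g) := fun g => by
        rw [TensorProduct.smul_tmul', smul_eq_mul, mul_one]
      rw [IG.baseA_act_tmul, h1, h1, map_smul, map_smul, h.act, map_smul]
      rfl
  fixed γ f := by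
    induction f using TensorProduct.induction_on with
    | zero => rw [map_zero, map_zero]
    | add x y hx hy => rw [map_add, map_add, map_add, hx, hy]
    | tmul q f =>
      have h1 : ∀ g : O, (q ⊗ₜ[B] g : ℚ ⊗[B] O) = q • (1 ⊗ₜ[B] g) := fun g => by
        rw [TensorProduct.smul_tmul', smul_eq_mul, mul_one]
      rw [IG.baseA_act_tmul, h1, h1, map_smul, map_smul, h.fixed]
  cent := cent_iff π ν h.cent
  ker γ hγ := by
    have h1 : A.act γ = 1 := h.ker γ hγ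
    have h2 : A.act γ = A.act 1 := h1.trans (map_one A.act).symm
    exact (IG.baseA_act_eq A h2).trans (map_one _)

end Levi

section Galois

variable {F : Type} [Field F] [NumberField F] {B O : Type} [CommRing B] [CommRing O]
  [HopfAlgebra B O] {A : OverB.HopfAction B Gal(AlgebraicClosure F/F) O}
  {S : Finset (HeightOneSpectrum (𝓞 F))}
  {φ : HeightOneSpectrum (𝓞 F) → Gal(AlgebraicClosure F/F)}

open Classical in
/-- Extension of a family of values to all places. -/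
noncomputable def ext {T : HeightOneSpectrum (𝓞 F) → Type} (z : ∀ v, T v)
    (x : ∀ i : Ix A S φ, T i.v) : ∀ v, A.inv (φ v) → T v := fun v f =>
  if h : v ∉ S then x ⟨v, h, f, (isInv_iff A (φ v) f).2 f.2⟩ else z v

/-- The index of the new type. -/
def ixOf (i : TP.Ix A S φ) : Ix A S φ :=
  ⟨i.1.1, i.1.2, i.2, (isInv_iff A (φ i.1.1) i.2).2 i.2.2⟩

theorem ext_of {T : HeightOneSpectrum (𝓞 F) → Type} (z : ∀ v, T v)
    (x : ∀ i : Ix A S φ, T i.v) (i : TP.Ix A S φ) : ext z x i.1.1 i.2 = x (ixOf i) :=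
  dif_pos i.1.2

theorem IsDetected.old {T : Type} [CommRing T] [TopologicalSpace T] {x : Ix A S φ → T} {t : T}
    (h : IsDetected A S φ x t) :
    OverB.IsDetected A S φ (ext (T := fun _ => T) (fun _ => 0) x) t := by
  obtain ⟨e, he, ht, c, hc⟩ := h
  refine ⟨e, he, ht, toL hc.hom, ⟨fun γ => rfl, hc.cont, ?_, ?_⟩⟩
  · intro v hv P u hu
    apply OverB.Pts.ext
    apply AlgHom.ext
    intro f
    exact hc.unram v hv P u hu f
  · intro v hv f
    have h1 : ext (T := fun _ => T) (fun _ => 0) x v f =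
        x ⟨v, hv, f, (isInv_iff A (φ v) f).2 f.2⟩ := dif_pos hv
    rw [h1]
    exact hc.value ⟨v, hv, f, (isInv_iff A (φ v) f).2 f.2⟩

end Galois

end Pool.Agent.Lib.MP_666dc0_nt.TL
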