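import Pool.Agent.Lib.MP_666dc0_nt.TL.B2
import Pool.Agent.Lib.MP_666dc0_nt.TP.R2

/-!
# TL, B3: polynomials in operators
-/

open NumberField IsDedekindDomain TensorProduct LaurentPolynomial
open scoped NumberField TensorProduct

namespace Pool.Agent.Lib.MP_666dc0_nt.TL

section Poly

variable {I J R : Type} [CommRing R]

theorem evalPoly_single {T : Type} [Semiring T] [Algebra R T] (x : J → T) (w : List J) (r : R) :
    evalPoly x (Finsupp.single w r) = r • (w.map x).prod := by
  unfold evalPoly
  exact Finsupp.sum_single_index (zero_smul R _)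

theorem evalPoly_add {T : Type} [Semiring T] [Algebra R T] (x : J → T) (s t : List J →₀ R) :
    evalPoly x (s + t) = evalPoly x s + evalPoly x t := by
  unfold evalPoly
  exact Finsupp.sum_add_index' (fun _ => zero_smul _ _) (fun _ _ _ => add_smul _ _ _)

theorem evalPoly_zero {T : Type} [Semiring T] [Algebra R T] (x : J → T) :
    evalPoly x (0 : List J →₀ R) = 0 := Finsupp.sum_zero_index

theorem exists_mul (s t : List J →₀ R) : ∃ u : List J →₀ R, ∀ (T : Type) [Semiring T]
    [Algebra R T] (x : J → T), evalPoly x u = evalPoly x s * evalPoly x t := by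
  classical
  induction s using Finsupp.induction_linear with
  | zero => exact ⟨0, fun T _ _ x => by rw [evalPoly_zero, zero_mul]⟩
  | add s s' h h' =>
    obtain ⟨u, hu⟩ := h
    obtain ⟨u', hu'⟩ := h'
    exact ⟨u + u', fun T _ _ x => by rw [evalPoly_add, evalPoly_add, hu, hu', add_mul]⟩
  | single w r =>
    induction t using Finsupp.induction_linear with
    | zero => exact ⟨0, fun T _ _ x => by rw [evalPoly_zero, mul_zero]⟩
    | add s s' h h' =>
      obtain ⟨u, hu⟩ := h
      obtain ⟨u', hu'⟩ := h'
      exact ⟨u + u', fun T _ _ x => by rw [evalPoly_add, evalPoly_add, hu, hu', mul_add]⟩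
    | single w' r' =>
      refine ⟨Finsupp.single (w ++ w') (r * r'), fun T _ _ x => ?_⟩
      rw [evalPoly_single, evalPoly_single, evalPoly_single, List.map_append, List.prod_append,
        smul_mul_smul_comm]

/-- Every element of the free algebra is given by a polynomial. -/
theorem exists_poly (e : I → J) (t : FreeAlgebra R I) : ∃ s : List J →₀ R, ∀ (T : Type)
    [Semiring T] [Algebra R T] (x : J → T),
    evalPoly x s = FreeAlgebra.lift R (fun i => x (e i)) t := by
  induction t using FreeAlgebra.induction with
  | grade0 r =>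
    refine ⟨Finsupp.single [] r, fun T _ _ x => ?_⟩
    rw [evalPoly_single, AlgHom.commutes, List.map_nil, List.prod_nil, Algebra.algebraMap_eq_smul_one]
  | grade1 i =>
    refine ⟨Finsupp.single [e i] 1, fun T _ _ x => ?_⟩
    rw [evalPoly_single, FreeAlgebra.lift_ι_apply, List.map_cons, List.map_nil, List.prod_cons,
      List.prod_nil, mul_one, one_smul]
  | mul a b ha hb =>
    obtain ⟨s, hs⟩ := ha
    obtain ⟨t, ht⟩ := hb
    obtain ⟨u, hu⟩ := exists_mul s t
    exact ⟨u, fun T _ _ x => by rw [hu, hs, ht, map_mul]⟩
  | add a b ha hb =>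
    obtain ⟨s, hs⟩ := ha
    obtain ⟨t, ht⟩ := hb
    exact ⟨s + t, fun T _ _ x => by rw [evalPoly_add, hs, ht, map_add]⟩

theorem foldr_eq {R' Y : Type} [Semiring R'] [AddCommMonoid Y] [Module R' Y]
    (T : J → Module.End R' Y) (w : List J) (y : Y) :
    w.foldr (fun j => T j) y = (w.map T).prod y := by
  induction w with
  | nil => rfl
  | cons j w ih =>
    rw [List.foldr_cons, ih, List.map_cons, List.prod_cons]
    rfl

/-- Polynomials in linear operators, coefficients in the ring over which they are linear. -/
theorem polyOp_eq {Y : Type} [AddCommGroup Y] [Module R Y] (T : J → Module.End R Y)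
    (t : List J →₀ R) (y : Y) : polyOp (fun j => T j) t y = evalPoly T t y := by
  unfold polyOp evalPoly Finsupp.sum
  rw [LinearMap.sum_apply]
  refine Finset.sum_congr rfl fun w _ => ?_
  beta_reduce
  rw [LinearMap.smul_apply, foldr_eq]

/-- Polynomials in linear operators, integral coefficients. -/
theorem polyOp_eq_int {Y : Type} [AddCommGroup Y] [Module R Y] (T : J → Module.End R Y)
    (t : List J →₀ ℤ) (y : Y) : polyOp (fun j => T j) t y = evalPoly T t y := by
  unfold polyOp evalPoly Finsupp.sum
  rw [LinearMap.sum_apply]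
  refine Finset.sum_congr rfl fun w _ => ?_
  beta_reduce
  rw [foldr_eq]
  rfl

end Poly

end Pool.Agent.Lib.MP_666dc0_nt.TL
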