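import Pool.Agent.Lib.MP_666dc0_nt.TL.B3

/-!
# TL, B4: Hecke operators, the torsion hypothesis, occurrence
-/

open NumberField IsDedekindDomain TensorProduct LaurentPolynomial
open scoped NumberField TensorProduct

namespace Pool.Agent.Lib.MP_666dc0_nt.TL

open WL TP

section Groups

variable {F : Type} [Field F] [NumberField F] {n : ℕ} {D : Datum F n} {μ : Grading D}
  {D' : Datum F n} {U : Subgroup D.Ad} {v : HeightOneSpectrum (𝓞 F)}

theorem IsGoodAt.old (h : IsGoodAt μ U v) : IsGood μ U v where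
  split := h.split
  iwasawa := h.iwasawa

theorem epsilon_eq_choose {α : Type} [Nonempty α] {p : α → Prop} (h : ∃ x, p x) :
    Classical.epsilon p = h.choose := by
  unfold Classical.epsilon Classical.strongIndefiniteDescription
  rw [dif_pos h]
  rfl

theorem leviPt_eq (hM : μ.IsLevi D') (hg : IsGood μ U v) (c : LocQuot U v) :
    leviPt μ D' c = leviRep μ D' c := by
  obtain ⟨g, rfl⟩ := QuotientGroup.mk_surjective c
  obtain ⟨q, hq, hqP, hqU⟩ := hg.iwasawa g.1 g.2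
  have h1 : (QuotientGroup.mk (⟨q, hq⟩ : Loc D v) : LocQuot U v) = QuotientGroup.mk g := by
    rw [QuotientGroup.eq, Subgroup.mem_subgroupOf]
    exact hqU
  have h : ∃ m : D'.Ad, ∃ q : Loc D v,
      (q : D.Ad) ∈ μ.parab (algebraMap F (FiniteAdeleRing (𝓞 F) F)) ∧
      (QuotientGroup.mk q : LocQuot U v) = QuotientGroup.mk g ∧
      μ.IsLeviPart (algebraMap F (FiniteAdeleRing (𝓞 F) F)) (q : D.Ad).1 m.1 :=
    ⟨leviM hM _ q, ⟨q, hq⟩, hqP, h1, leviM_spec hM hqP⟩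
  have h2 : leviRep μ D' (QuotientGroup.mk g : LocQuot U v) = h.choose := by
    unfold leviRep
    exact dif_pos h
  rw [h2]
  exact epsilon_eq_choose (p := IsLeviRep μ D' (QuotientGroup.mk g : LocQuot U v)) h

variable {ℓ : ℕ} [Fact ℓ.Prime] (X : Type) [AddCommGroup X] [Module ℤ_[ℓ] X]

theorem heckeOp_eq (h : Hk ℓ U v) : heckeOp X h = ⇑(h.op X) := by
  classical
  funext f g
  unfold heckeOp sumOp
  simp only [if_true]
  rfl

theorem isDeg_iff (hM : μ.IsLevi D') (hg : IsGood μ U v) (a₀ : ℤ) (c : LocQuot U v) (r : ℤ) :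
    IsDeg μ D' a₀ c r ↔ HasDeg μ D' a₀ c r := by
  unfold IsDeg HasDeg
  rw [leviPt_eq hM hg]

theorem ctOp_eq (hM : μ.IsLevi D') (hg : IsGood μ U v) (a₀ : ℤ) (h : Hk ℓ U v) (r : ℤ) :
    ctOp μ D' X a₀ h r = ⇑(h.ct μ D' a₀ r X) := by
  classical
  funext f g
  unfold ctOp sumOp
  change _ = h.1.sum fun c s => if HasDeg μ D' a₀ c r then s • f (g * leviRep μ D' c) else 0
  unfold Finsupp.sum
  refine Finset.sum_congr rfl fun c _ => ?_
  beta_reduce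
  rw [leviPt_eq hM hg]
  by_cases h1 : HasDeg μ D' a₀ c r
  · rw [if_pos h1, if_pos ((isDeg_iff hM hg a₀ c r).2 h1)]
  · rw [if_neg h1, if_neg (fun h2 => h1 ((isDeg_iff hM hg a₀ c r).1 h2))]

end Groups

section Systems

variable {F : Type} [Field F] [NumberField F] {n : ℕ} {D : Datum F n} {ℓ : ℕ} [Fact ℓ.Prime]
  {U : Subgroup D.Ad} {B O : Type} [CommRing B] [CommRing O] [HopfAlgebra B O]
  {A : OverB.HopfAction B Gal(AlgebraicClosure F/F) O} {S : Finset (HeightOneSpectrum (𝓞 F))}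
  {φ : HeightOneSpectrum (𝓞 F) → Gal(AlgebraicClosure F/F)}

/-- The Hecke functions, extended by zero. -/
noncomputable def satOld (sat : ∀ i : Ix A S φ, Hk ℓ U i.v) : ∀ v, A.inv (φ v) → Hk ℓ U v :=
  ext (T := fun v => Hk ℓ U v) (fun _ => ⟨0, fun _ _ _ => rfl⟩) sat

theorem satOld_of (sat : ∀ i : Ix A S φ, Hk ℓ U i.v) (i : TP.Ix A S φ) :
    satOld sat i.1.1 i.2 = sat (ixOf i) := ext_of _ sat i

omit [NumberField F] in
theorem lift_toZl_gen {I E : Type} [Ring E] [Algebra ℤ_[ℓ] E] (c : I → E) (t : FreeAlgebra ℤ I) :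
    FreeAlgebra.lift ℤ_[ℓ] c (toZl ℓ I t) = FreeAlgebra.lift ℤ c t := by
  induction t using FreeAlgebra.induction with
  | grade0 r =>
    rw [AlgHom.commutes, AlgHom.commutes, eq_intCast, eq_intCast, map_intCast]
  | grade1 i =>
    simp only [toZl, FreeAlgebra.lift_ι_apply]
  | mul a b ha hb =>
    rw [map_mul, map_mul, map_mul, ha, hb]
  | add a b ha hb =>
    rw [map_add, map_add, map_add, ha, hb]

theorem TorsionDetected.old {Q : Type} [PartialOrder Q] [OrderTop Q] {a : D.Rat →* (Q ≃o Q)}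
    {sat : ∀ i : Ix A S φ, Hk ℓ U i.v} (h : TorsionDetected a sat) :
    TP.TorsionDetected a A S φ (satOld sat) := by
  obtain ⟨T, i1, i2, i3, i4, x, N, hx, hk⟩ := h
  refine ⟨T, i1, i2, i3, i4, ext (T := fun _ => T) (fun _ => 0) x, N,
    fun t ht => (hx t ht).old, fun m k K hK => ?_⟩
  obtain ⟨W, hW, h⟩ := hk m k K hK
  refine ⟨W, hW, fun t ht => ?_⟩
  obtain ⟨s, hs⟩ := exists_poly (R := ℤ) (ixOf (A := A) (S := S) (φ := φ)) t
  have h1 : (fun i : TP.Ix A S φ => ext (T := fun _ => T) (fun _ => 0) x i.1.1 i.2) =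
      fun i => x (ixOf i) := funext fun i => ext_of (T := fun _ => T) _ x i
  have h2 : evalPoly x s ∈ W := by
    rw [hs T x, ← h1]
    exact ht
  obtain ⟨h3, h4⟩ := h s h2
  have h5 : polyOp (fun i => heckeOp (Zk ℓ k) (sat i)) s =
      ⇑(actG (satOld sat) (Zk ℓ k) (toZl ℓ (TP.Ix A S φ) t)) := by
    funext y
    have h6 : (fun i => heckeOp (Zk ℓ k) (sat i)) =
        fun i : Ix A S φ => ⇑((sat i).op (Zk ℓ k)) := funext fun i => heckeOp_eq _ _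
    rw [h6, polyOp_eq_int (R := ℤ_[ℓ]) (fun i : Ix A S φ => (sat i).op (Zk ℓ k)) s y, hs]
    unfold actG
    rw [lift_toZl_gen]
    have h7 : (fun i : TP.Ix A S φ => (satOld sat i.1.1 i.2).op (Zk ℓ k)) =
        fun i => (sat (ixOf i)).op (Zk ℓ k) := funext fun i => by
      rw [satOld_of]
      rfl
    rw [h7]
  have h8 : (polyOp (fun i => heckeOp (Zk ℓ k) (sat i)) s)^[N m] =
      ⇑(actG (satOld sat) (Zk ℓ k) (toZl ℓ (TP.Ix A S φ) t) ^ N m) := by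
    rw [h5]
    funext y
    exact (Module.End.pow_apply _ _ _).symm
  rw [h8] at h3 h4
  exact ⟨h3, h4⟩

variable {μ : Grading D} {D' : Datum F n} {a₀ : ℤ} {sat : ∀ i : Ix A S φ, Hk ℓ U i.v}
  {Q' : Type} [PartialOrder Q'] [OrderTop Q'] {a' : D'.Rat →* (Q' ≃o Q')} [Algebra B ℚ]
  {O' : Type} [CommRing O'] [HopfAlgebra ℚ O'] {π : (ℚ ⊗[B] O) →ₐc[ℚ] O'}
  {ν : (ℚ ⊗[B] O) →ₐc[ℚ] ℚ[T;T⁻¹]} {m : HeightOneSpectrum (𝓞 F) → (O' →ₐ[ℚ] PadicAlgCl ℓ)}

theorem OccursInterior.old (hM : μ.IsLevi D') (hgood : ∀ v, v ∉ S → IsGood μ U v)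
    (h : OccursInterior μ D' a₀ sat a' π ν m) :
    ∃ (K' : Subgroup D'.Ad) (d i : ℕ) (ρ : Representation ℤ_[ℓ] K' (Fin d → ℤ_[ℓ])),
      IsLevel ℓ (restr D' U) K' ∧ (∀ w, Continuous fun x : K' => ρ x w) ∧
      Occurs μ D' a₀ (satOld sat) a' K' ρ i (fun x : IxM A S φ =>
        coef π ν (⟨m x.1.1.1⟩ : Pts O' (PadicAlgCl ℓ)) (1 ⊗ₜ[B] (x.1.2 : O)) x.2) := by
  obtain ⟨K', V, i, hK', h⟩ := h
  refine ⟨K', V.d, i, V.ρ, hK', V.cont, fun t ht => ?_⟩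
  obtain ⟨s, hs⟩ := exists_poly (R := ℤ_[ℓ])
    (fun x : TP.IxM A S φ => ((ixOf x.1, x.2) : Ix A S φ × ℤ)) t
  have h1 := h s (by
    intro z hz hr hd
    obtain ⟨r, h2⟩ := ht z hz hr hd
    refine ⟨r, ?_⟩
    have h3 : (fun x : Ix A S φ × ℤ => ctOp μ D' (Fin V.d → ℤ_[ℓ]) a₀ (sat x.1) x.2) =
        fun x => ⇑((sat x.1).ct μ D' a₀ x.2 (Fin V.d → ℤ_[ℓ])) :=
      funext fun x => ctOp_eq _ hM (hgood _ x.1.hv) a₀ (sat x.1) x.2
    have h4 : ∀ y, polyOp (fun x : Ix A S φ × ℤ =>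
        ctOp μ D' (Fin V.d → ℤ_[ℓ]) a₀ (sat x.1) x.2) s y =
        actM μ D' a₀ (satOld sat) (Fin V.d → ℤ_[ℓ]) t y := by
      intro y
      rw [h3, polyOp_eq (R := ℤ_[ℓ]) (fun x : Ix A S φ × ℤ =>
        (sat x.1).ct μ D' a₀ x.2 (Fin V.d → ℤ_[ℓ])) s y, hs]
      unfold actM
      have h7 : (fun x : TP.IxM A S φ => (satOld sat x.1.1.1 x.1.2).ct μ D' a₀ x.2
          (Fin V.d → ℤ_[ℓ])) =
          fun x => (sat (ixOf x.1)).ct μ D' a₀ x.2 (Fin V.d → ℤ_[ℓ]) :=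
        funext fun x => by
          rw [satOld_of]
          rfl
      rw [h7]
    have h5 : (fun e x => (ℓ : ℤ_[ℓ]) ^ r • polyOp (fun x : Ix A S φ × ℤ =>
        ctOp μ D' (Fin V.d → ℤ_[ℓ]) a₀ (sat x.1) x.2) s (topVal z e x)) =
        (ℓ : ℤ_[ℓ]) ^ r • opOn (actM μ D' a₀ (satOld sat) (Fin V.d → ℤ_[ℓ]) t) (topVal z) := by
      funext e x
      rw [h4]
      rfl
    rw [h5]
    exact h2)
  rw [hs] at h1
  rw [← h1]
  congr 2

end Systems

end Pool.Agent.Lib.MP_666dc0_nt.TL
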