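import Pool.Agent.Lib.MP_666dc0_nt.TP.Defs

/-!
# Torsion classes of a group and Galois representations for its Levi subgroups: definitions
-/

open NumberField IsDedekindDomain TensorProduct LaurentPolynomial
open scoped NumberField TensorProduct

namespace Pool.Agent.Lib.MP_666dc0_nt.TL

open WL TP

section Points

variable {B O R Γ : Type} [CommRing B] [CommRing O] [HopfAlgebra B O] [CommRing R] [Algebra B R]
  [Group Γ]

/-- Let `Ĝ = Spec O` be an affine group scheme over `B`. A point of `Ĝ(R)` is a homomorphism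
`x : O → R` of `B`-algebras; `x f` is the value at the point of the regular function `f`. This is the
product `x y` in the group `Ĝ(R)`. -/
noncomputable def mulPt (x y : O →ₐ[B] R) : O →ₐ[B] R :=
  (Algebra.TensorProduct.productMap x y).comp (Bialgebra.comulAlgHom B O)

/-- The action of `Γ` on `Ĝ(R)`: `(γ x)(f) = x(act γ⁻¹ f)`. -/
noncomputable def actPt (A : OverB.HopfAction B Γ O) (γ : Γ) (x : O →ₐ[B] R) : O →ₐ[B] R :=
  x.comp (A.act γ⁻¹).toAlgHom

/-- The function `f` on `Ĝ` is invariant on the coset `Ĝ ⋊ σ` (under conjugation by `Ĝ`):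
`f(x g) = f(g σ(x))` for all points `x`, `g`, that is `f(x g σ(x)⁻¹) = f(g)`. -/
def IsInv (A : OverB.HopfAction B Γ O) (σ : Γ) (f : O) : Prop :=
  ∀ (R : Type) [CommRing R] [Algebra B R] (x g : O →ₐ[B] R),
    mulPt x g f = mulPt g (actPt A σ x) f

/-- The map `γ ↦ (c(γ), γ)` is a homomorphism from `Γ` to `ᴸG(R) = Ĝ(R) ⋊ Γ`. (These are exactly the
homomorphisms `r : Γ → ᴸG(R)` compatible with the projections to `Γ`.) -/
def IsLHom (A : OverB.HopfAction B Γ O) (c : Γ → (O →ₐ[B] R)) : Prop :=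
  ∀ γ δ, c (γ * δ) = mulPt (c γ) (actPt A γ (c δ))

end Points

section Galois

variable {F : Type} [Field F] [NumberField F] {B O : Type} [CommRing B] [CommRing O]
  [HopfAlgebra B O] (A : OverB.HopfAction B Gal(AlgebraicClosure F/F) O)
  (S : Finset (HeightOneSpectrum (𝓞 F)))
  (φ : HeightOneSpectrum (𝓞 F) → Gal(AlgebraicClosure F/F))

/-- The pairs `(v, f)` of a place `v ∉ S` and of a function `f` on `Ĝ` that is invariant on
`Ĝ ⋊ φ v`. -/
structure Ix where
  /-- the place -/
  v : HeightOneSpectrum (𝓞 F)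
  hv : v ∉ S
  /-- the invariant function -/
  f : O
  hf : IsInv A (φ v) f

/-- The homomorphism `r(γ) = (c(γ), γ)` from `Γ_F` to `ᴸG(R)`, `R` a topological `B`-algebra, is
attached to the family of values `w`: it is continuous (each regular function `f` on `Ĝ` gives a
continuous function `γ ↦ f(c(γ))`), and for all `v ∉ S` it is trivial on the inertia groups at `v` and
every invariant function `f` on `Ĝ ⋊ φ v` takes the value `w (v, f)` at `r(φ v)`. -/
structure IsAttached {R : Type} [CommRing R] [Algebra B R] [TopologicalSpace R]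
    (w : Ix A S φ → R) (c : Gal(AlgebraicClosure F/F) → (O →ₐ[B] R)) : Prop where
  hom : IsLHom A c
  cont : ∀ f : O, Continuous fun γ => c γ f
  unram : ∀ v, v ∉ S → ∀ P u, IsInertiaAt v P u →
    ∀ f, c u f = algebraMap B R (CoalgebraStruct.counit f)
  value : ∀ i : Ix A S φ, c (φ i.v) i.f = w i

/-- The element `t` of the topological ring `T` is detected by Galois representations: there are a
commutative Hausdorff topological `B`-algebra `R`, a continuous ring homomorphism `e : T → R` with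
`e(t) ≠ 0` and a homomorphism `r : Γ_F → ᴸG(R)` attached to the family of values `e(x (v, f))`. -/
inductive IsDetected {T : Type} [CommRing T] [TopologicalSpace T] (x : Ix A S φ → T) (t : T) : Prop
  | intro {R : Type} [CommRing R] [Algebra B R] [TopologicalSpace R] [T2Space R] (e : T →+* R)
      (he : Continuous e) (ht : e t ≠ 0) (c : Gal(AlgebraicClosure F/F) → (O →ₐ[B] R))
      (hc : IsAttached A S φ (fun i => e (x i)) c) : IsDetected x t

end Galois

section Levi

variable {O₁ O' R : Type} [CommRing O₁] [HopfAlgebra ℚ O₁] [CommRing O'] [HopfAlgebra ℚ O']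
  [CommRing R] [Algebra ℚ R]

/-- The value `ν(t) ∈ Ĝ(R)` at `t ∈ Rˣ` of a cocharacter `ν` of `Ĝ = Spec O₁`. -/
noncomputable def cocharPt (ν : O₁ →ₐc[ℚ] ℚ[T;T⁻¹]) (t : Rˣ) : O₁ →ₐ[ℚ] R :=
  (evalUnit t).comp (ν : O₁ →ₐ[ℚ] ℚ[T;T⁻¹])

/-- The point of `Ĝ(R)` given by the point `h` of `M̂(R)`, `M̂ = Spec O'`, and a homomorphism
`π : O₁ → O'` of Hopf algebras. -/
noncomputable def inclPt (π : O₁ →ₐc[ℚ] O') (h : O' →ₐ[ℚ] R) : O₁ →ₐ[ℚ] R :=
  h.comp (π : O₁ →ₐ[ℚ] O')

/-- The centraliser of the cocharacter `ν` of `Ĝ` is the closed subgroup scheme `M̂` given by `π`: for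
each `ℚ`-algebra `R` the points of `M̂(R)` are the `g ∈ Ĝ(R)` that commute with `ν(t) ∈ Ĝ(R')` for all
`R`-algebras `R'` and all `t ∈ R'ˣ`. -/
def IsCent (π : O₁ →ₐc[ℚ] O') (ν : O₁ →ₐc[ℚ] ℚ[T;T⁻¹]) : Prop :=
  ∀ (R : Type) [CommRing R] [Algebra ℚ R] (g : O₁ →ₐ[ℚ] R), (∃ h, inclPt π h = g) ↔
    ∀ (R' : Type) [CommRing R'] [Algebra ℚ R'] (ψ : R →ₐ[ℚ] R') (t : R'ˣ),
      mulPt (ψ.comp g) (cocharPt ν t) = mulPt (cocharPt ν t) (ψ.comp g)

/-- The coefficient of `T^r` in `f(m ν(T))`, for `m ∈ M̂(K)`, a cocharacter `ν` and a regular function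
`f` on `Ĝ`. -/
noncomputable def coefPt (π : O₁ →ₐc[ℚ] O') (ν : O₁ →ₐc[ℚ] ℚ[T;T⁻¹]) {K : Type} [Field K]
    [CharZero K] (m : O' →ₐ[ℚ] K) (f : O₁) (r : ℤ) : K :=
  (mulPt ((C : K →+* K[T;T⁻¹]).toRatAlgHom.comp (inclPt π m)) (cocharPt ν (unitT K)) f).coeff r

variable {B O Γ : Type} [CommRing B] [Algebra B ℚ] [CommRing O] [HopfAlgebra B O] [Group Γ]

/-- `M̂ = Spec O'` is a `Γ`-stable closed subgroup scheme of the generic fibre of `Ĝ = Spec O`, namely
the centraliser of the cocharacter `ν`, which is fixed by `Γ`. Moreover elements of `Γ` acting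
trivially on `M̂` act trivially on `Ĝ` (for dual groups this is automatic: `M̂` contains `T̂`, and an
automorphism preserving a pinning and acting trivially on `T̂` is trivial). -/
structure IsLeviHat (A : OverB.HopfAction B Γ O) (A' : OverB.HopfAction ℚ Γ O')
    (π : (ℚ ⊗[B] O) →ₐc[ℚ] O') (ν : (ℚ ⊗[B] O) →ₐc[ℚ] ℚ[T;T⁻¹]) : Prop where
  surj : Function.Surjective π
  act : ∀ γ (f : O), π (1 ⊗ₜ[B] A.act γ f) = A'.act γ (π (1 ⊗ₜ[B] f))
  fixed : ∀ γ (f : O), ν (1 ⊗ₜ[B] A.act γ f) = ν (1 ⊗ₜ[B] f)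
  cent : IsCent π ν
  ker : ∀ γ, A'.act γ = 1 → A.act γ = 1

end Levi

section Operators

variable {I R Y T : Type}

/-- The value at the operators `T i` of a polynomial in non-commuting variables `i ∈ I`, that is of a
finite linear combination `t` of words. -/
noncomputable def polyOp [Semiring R] [AddCommMonoid Y] [Module R Y] (T : I → Y → Y)
    (t : List I →₀ R) (y : Y) : Y :=
  t.sum fun w r => r • w.foldr T y

/-- The value at the elements `x i` of a polynomial in non-commuting variables `i ∈ I`. -/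
noncomputable def evalPoly [Semiring R] [Semiring T] [Module R T] (x : I → T) (t : List I →₀ R) : T :=
  t.sum fun w r => r • (w.map x).prod

variable {ι G X : Type} [Group G] [Semiring R] [AddCommMonoid X] [Module R X]

/-- The operator `f ↦ (g ↦ ∑ h(c) f(g g_c))` on functions on `G`, the sum over the `c` with
`p c`. -/
noncomputable def sumOp (h : ι →₀ R) (p : ι → Prop) (rep : ι → G) (f : G → X) (g : G) : X := by
  classical
  exact h.sum fun c s => if p c then s • f (g * rep c) else 0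

end Operators

section Cohomology

variable {Γ G Q : Type} [Group Γ] [Group G] [PartialOrder Q] [OrderTop Q] (τ : Γ →* G)
  (a : Γ →* (Q ≃o Q)) (U K : Subgroup G)

/-- The operator `T` kills the cohomology with compact support of degree `m` and level `U K` with
coefficients in `X` (trivial action). If `Q` is a point this is the cohomology itself. -/
def KillsCoh (R X : Type) [CommRing R] [AddCommGroup X] [Module R X] (T : (G → X) → (G → X))
    (m : ℕ) : Prop :=
  ∀ z : Coch Γ G Q X m, IsCoch τ a U K (1 : Representation R K X) z → IsRel z → del z = 0 →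
    IsCob τ a U K (1 : Representation R K X) (fun e x => T (z e x))

variable (ℓ : ℕ) [Fact ℓ.Prime] {K}

/-- A continuous representation `V = ℤ_ℓ^d` of the group `K`. -/
structure ContRep [TopologicalSpace G] (K : Subgroup G) where
  /-- the rank -/
  d : ℕ
  /-- the representation -/
  ρ : Representation ℤ_[ℓ] K (Fin d → ℤ_[ℓ])
  cont : ∀ w, Continuous fun x : K => ρ x w

variable {ℓ} [TopologicalSpace G]

/-- **The system `c` of eigenvalues of the operators `T i` occurs in the interior cohomology**, of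
degree `m` and level `U K`, with coefficients in `V`: every polynomial in the operators `T i` that
kills `H_!^m(V) ⊗ ℚ`, the image of the cohomology with compact support in the cohomology, vanishes
at `c`. -/
def OccursIn (V : ContRep ℓ K) (m : ℕ) {I : Type}
    (T : I → (G → Fin V.d → ℤ_[ℓ]) → (G → Fin V.d → ℤ_[ℓ])) (c : I → PadicAlgCl ℓ) : Prop :=
  ∀ t : List I →₀ ℤ_[ℓ],
    (∀ z : Coch Γ G Q (Fin V.d → ℤ_[ℓ]) m, IsCoch τ a U K V.ρ z → IsRel z → del z = 0 → ∃ r : ℕ,
      IsCob τ (1 : Γ →* (Unit ≃o Unit)) U K V.ρ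
        (fun e x => (ℓ : ℤ_[ℓ]) ^ r • polyOp T t (topVal z e x))) →
    evalPoly c t = 0

end Cohomology

section Groups

variable {F : Type} [Field F] [NumberField F] {n : ℕ} {D : Datum F n} (μ : Grading D)
  (D' : Datum F n)

/-- The element `g` is in the parabolic subgroup `P = P(μ)` of `G`: `p_a g p_b = 0` and
`p_a g⁻¹ p_b = 0` for `a < b`. -/
def IsParab {R : Type} [CommRing R] (φ : F →+* R) (g : GL (Fin n) R) : Prop :=
  ∀ a b, a < b → (μ.p a).map φ * (g : Matrix (Fin n) (Fin n) R) * (μ.p b).map φ = 0 ∧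
    (μ.p a).map φ * ((g⁻¹ : GL (Fin n) R) : Matrix (Fin n) (Fin n) R) * (μ.p b).map φ = 0

/-- `Q` is an ordered set with greatest element and an action `a` of `G(F)`, `Q'` the same for the
Levi subgroup `M` of `P`, and `j : Q' → Q` identifies `Q'` with the elements `≤ j ⊤`; `j ⊤` is
maximal among the elements `≠ ⊤`, its stabiliser is `P(F)`, which acts on the elements below through
`P(F) → M(F)`. (For `G` connected reductive and `P` a maximal parabolic subgroup: `Q` and `Q'` are the
sets of all parabolic `F`-subgroups of `G` and of `M`, and `j(R) = R N`, `N` the unipotent radical of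
`P`.) -/
structure IsFlagPair {Q Q' : Type} [PartialOrder Q] [OrderTop Q] [PartialOrder Q'] [OrderTop Q']
    (a : D.Rat →* (Q ≃o Q)) (a' : D'.Rat →* (Q' ≃o Q')) (j : Q' ↪o Q) : Prop where
  range : ∀ x, x ≤ j ⊤ → x ∈ Set.range j
  coatom : IsCoatom (j ⊤)
  stab : ∀ γ, a γ (j ⊤) = j ⊤ ↔ IsParab μ (RingHom.id F) γ.1
  act : ∀ γ : D.Rat, IsParab μ (RingHom.id F) γ.1 → ∀ γ' : D'.Rat,
    μ.IsLeviPart (RingHom.id F) γ.1 γ'.1 → ∀ x, a γ (j x) = j (a' γ' x)

/-- The elements of the parabolic subgroup in `U` have their Levi part in `U`. -/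
def IsLeviStable (U : Subgroup D.Ad) : Prop :=
  ∀ u ∈ U, IsParab μ (algebraMap F (FiniteAdeleRing (𝓞 F) F)) u.1 → ∀ m : D'.Ad,
    μ.IsLeviPart (algebraMap F (FiniteAdeleRing (𝓞 F) F)) u.1 m.1 → m ∈ restr D' U

/-- The tame level `U` of `G` is good at `v` for the parabolic subgroup `P`: it is the product of
`U_v = U ∩ G(F_v)` and of a group with trivial components at `v`, and `G(F_v) = P(F_v) U_v`
(Iwasawa decomposition). -/
structure IsGoodAt (U : Subgroup D.Ad) (v : HeightOneSpectrum (𝓞 F)) : Prop where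
  split : ∀ u ∈ U, ∃ a ∈ U, a ∈ locSub D v ∧ TrivialAt v (a⁻¹ * u)
  iwasawa : ∀ g ∈ locSub D v, ∃ q ∈ locSub D v,
    IsParab μ (algebraMap F (FiniteAdeleRing (𝓞 F) F)) q.1 ∧ q⁻¹ * g ∈ U

variable {U : Subgroup D.Ad} {v : HeightOneSpectrum (𝓞 F)}

/-- `m ∈ M(𝔸_f)` is the Levi part of a representative `q ∈ P(F_v)` of the coset `c`. -/
def IsLeviRep (c : LocQuot U v) (m : D'.Ad) : Prop :=
  ∃ q : Loc D v, IsParab μ (algebraMap F (FiniteAdeleRing (𝓞 F) F)) (q : D.Ad).1 ∧
    QuotientGroup.mk q = c ∧ μ.IsLeviPart (algebraMap F (FiniteAdeleRing (𝓞 F) F)) (q : D.Ad).1 m.1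

/-- The Levi part in `M(𝔸_f)` of a representative `q ∈ P(F_v)` of the coset `c`. -/
noncomputable def leviPt (c : LocQuot U v) : D'.Ad := Classical.epsilon (IsLeviRep μ D' c)

/-- The Levi part `m_c` of (a representative of) the coset `c` has degree `r`: `|χ(m_c)|_v = N(v)^r`,
where `χ(m) = det(m | V_{a₀})` for the summand `V_{a₀}` of degree `a₀` of the grading. -/
def IsDeg (a₀ : ℤ) (c : LocQuot U v) (r : ℤ) : Prop :=
  Valued.v ((μ.chi a₀ (algebraMap F (FiniteAdeleRing (𝓞 F) F))
    ((leviPt μ D' c).1 : Matrix (Fin n) (Fin n) (FiniteAdeleRing (𝓞 F) F))) v) =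
      ((Multiplicative.ofAdd r : Multiplicative ℤ) : WithZero (Multiplicative ℤ))

variable {ℓ : ℕ} [Fact ℓ.Prime] (X : Type) [AddCommGroup X] [Module ℤ_[ℓ] X]

/-- The Hecke operator of `h` on functions on `G(𝔸_f)`: `(T_h f)(g) = ∑ h(c) f(g c)`, the sum over
`c ∈ G(F_v) / (U ∩ G(F_v))`. -/
noncomputable def heckeOp (h : Hk ℓ U v) : (D.Ad → X) → (D.Ad → X) :=
  sumOp h.1 (fun _ => True) (fun c => ((Quotient.out c : locSub D v) : D.Ad))

/-- The part of degree `r` of the constant term along `P` of the Hecke operator of `h`, an operator on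
functions on `M(𝔸_f)`: `f ↦ (g ↦ ∑ h(c) f(g m_c))`, where `m_c ∈ M(F_v)` is the Levi part of a
representative of `c` in `P(F_v)`, and the sum is over the `c` with `|χ(m_c)|_v = N(v)^r`. -/
noncomputable def ctOp (a₀ : ℤ) (h : Hk ℓ U v) (r : ℤ) : (D'.Ad → X) → (D'.Ad → X) :=
  sumOp h.1 (fun c => IsDeg μ D' a₀ c r) (leviPt μ D')

end Groups

section Systems

variable {F : Type} [Field F] [NumberField F] {n : ℕ} {D : Datum F n} {ℓ : ℕ} [Fact ℓ.Prime]
  {U : Subgroup D.Ad} {B O : Type} [CommRing B] [CommRing O] [HopfAlgebra B O]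
  {A : OverB.HopfAction B Gal(AlgebraicClosure F/F) O} {S : Finset (HeightOneSpectrum (𝓞 F))}
  {φ : HeightOneSpectrum (𝓞 F) → Gal(AlgebraicClosure F/F)}

/-- **Galois representations for the torsion cohomology of `G`.** There is a compact topological ring
`T` with elements `x (v, f)`, all whose nonzero elements are detected by Galois representations with
values in `ᴸG`, such that the Hecke operators `sat (v, f)` act, modulo nilpotents of degree bounded in
terms of the degree `m` of the cohomology, continuously for the topology of `T` on the cohomology and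
on the cohomology with compact support with coefficients in `ℤ/ℓ^k`, at all levels at `ℓ`: a
polynomial in the Hecke operators whose value in `T` is sufficiently close to zero is nilpotent
there. -/
def TorsionDetected {Q : Type} [PartialOrder Q] [OrderTop Q] (a : D.Rat →* (Q ≃o Q))
    (sat : ∀ i : Ix A S φ, Hk ℓ U i.v) : Prop :=
  ∃ (T : Type) (_ : CommRing T) (_ : TopologicalSpace T) (_ : IsTopologicalRing T)
    (_ : CompactSpace T) (x : Ix A S φ → T) (N : ℕ → ℕ),
    (∀ t : T, t ≠ 0 → IsDetected A S φ x t) ∧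
    ∀ (m k : ℕ) (K : Subgroup D.Ad), IsLevel ℓ U K → ∃ W ∈ nhds (0 : T),
      ∀ t : List (Ix A S φ) →₀ ℤ, evalPoly x t ∈ W →
        KillsCoh D.toAd (1 : D.Rat →* (Unit ≃o Unit)) U K ℤ_[ℓ] (Zk ℓ k)
          (polyOp (fun i => heckeOp (Zk ℓ k) (sat i)) t)^[N m] m ∧
        KillsCoh D.toAd a U K ℤ_[ℓ] (Zk ℓ k)
          (polyOp (fun i => heckeOp (Zk ℓ k) (sat i)) t)^[N m] m

variable (μ : Grading D) (D' : Datum F n) (a₀ : ℤ) (sat : ∀ i : Ix A S φ, Hk ℓ U i.v)
  {Q' : Type} [PartialOrder Q'] [OrderTop Q'] (a' : D'.Rat →* (Q' ≃o Q')) [Algebra B ℚ]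
  {O' : Type} [CommRing O'] [HopfAlgebra ℚ O'] (π : (ℚ ⊗[B] O) →ₐc[ℚ] O')
  (ν : (ℚ ⊗[B] O) →ₐc[ℚ] ℚ[T;T⁻¹]) (m : HeightOneSpectrum (𝓞 F) → (O' →ₐ[ℚ] PadicAlgCl ℓ))

/-- **The system `m v ∈ M̂(ℚ̄_ℓ)` of Hecke eigenvalues occurs in the interior cohomology of `M`** of
some degree and level at `ℓ`, with coefficients in some continuous representation `V = ℤ_ℓ^d` of the
level at `ℓ`: there the constant terms of the operators `sat (v, f)`, graded by the absolute value of
the character `χ` of `M`, act as the coefficients of `f(m_v ν(T))`. -/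
def OccursInterior : Prop :=
  ∃ (K' : Subgroup D'.Ad) (V : ContRep ℓ K') (i : ℕ), IsLevel ℓ (restr D' U) K' ∧
    OccursIn D'.toAd a' (restr D' U) V i
      (fun x : Ix A S φ × ℤ => ctOp μ D' (Fin V.d → ℤ_[ℓ]) a₀ (sat x.1) x.2)
      (fun x => coefPt π ν (m x.1.v) (1 ⊗ₜ[B] x.1.f) x.2)

end Systems

end Pool.Agent.Lib.MP_666dc0_nt.TL
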