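import Pool.Agent.Lib.MP_666dc0_nt.TL.B4
import Pool.Agent.Lib.MP_666dc0_nt.TP.X5

/-!
# TL: the main theorem
-/

open NumberField IsDedekindDomain TensorProduct LaurentPolynomial
open scoped NumberField TensorProduct

namespace Pool.Agent.Lib.MP_666dc0_nt.TL

open WL TP EC

theorem main {F : Type} [Field F] [NumberField F] {n : ℕ} {D D' : Datum F n} (μ : Grading D)
    (hM : μ.IsLevi D') (hq : D'.q.det ≠ 0) (hcl : HasClosedOrbit D')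
    {Q Q' : Type} [PartialOrder Q] [OrderTop Q] [PartialOrder Q'] [OrderTop Q']
    (a : D.Rat →* (Q ≃o Q)) (a' : D'.Rat →* (Q' ≃o Q')) (j : Q' ↪o Q)
    (hj : IsFlagPair μ D' a a' j)
    {ℓ : ℕ} [Fact ℓ.Prime] {U : Subgroup D.Ad} (hU : IsTame ℓ U) (hK : ∃ K, IsLevel ℓ U K)
    (hUP : IsLeviStable μ D' U) (S : Finset (HeightOneSpectrum (𝓞 F)))
    (hSl : ∀ v : HeightOneSpectrum (𝓞 F), (ℓ : 𝓞 F) ∈ v.asIdeal → v ∈ S)
    (hgood : ∀ v, v ∉ S → IsGoodAt μ U v)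
    {B : Type} [CommRing B] [IsDomain B] [IsPrincipalIdealRing B] [Algebra B ℚ]
    [IsFractionRing B ℚ]
    {O : Type} [CommRing O] [HopfAlgebra B O] [Algebra.FiniteType B O] [Module.Free B O]
    (hO : LinearlyReductive (ℚ ⊗[B] O)) (A : OverB.HopfAction B Gal(AlgebraicClosure F/F) O)
    (hA : IsOpen (A.act.ker : Set Gal(AlgebraicClosure F/F)))
    (hS : ∀ v, v ∉ S → ∀ P u, IsInertiaAt v P u → A.act u = 1)
    (φ : HeightOneSpectrum (𝓞 F) → Gal(AlgebraicClosure F/F))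
    (hφ : (∀ v, v ∉ S → ∃ P, IsOver v P ∧ IsFrob v P (φ v)) ∨
      ∀ v, v ∉ S → ∃ P, IsOver v P ∧ IsFrob v P (φ v)⁻¹)
    {O' : Type} [CommRing O'] [HopfAlgebra ℚ O'] (hO' : LinearlyReductive O')
    (A' : OverB.HopfAction ℚ Gal(AlgebraicClosure F/F) O')
    (π : (ℚ ⊗[B] O) →ₐc[ℚ] O') (ν : (ℚ ⊗[B] O) →ₐc[ℚ] ℚ[T;T⁻¹])
    (hL : IsLeviHat A A' π ν) (sat : ∀ i : TL.Ix A S φ, Hk ℓ U i.v)
    (hT : TL.TorsionDetected a sat)
    (m : HeightOneSpectrum (𝓞 F) → (O' →ₐ[ℚ] PadicAlgCl ℓ)) (a₀ : ℤ)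
    (hocc : OccursInterior μ D' a₀ sat a' π ν m) :
    ∃ c : Gal(AlgebraicClosure F/F) → (O' →ₐ[ℚ] PadicAlgCl ℓ),
      IsAttached A' S φ (fun i => m i.v i.f) c := by
  letI : Algebra B (PadicAlgCl ℓ) :=
    ((algebraMap ℚ (PadicAlgCl ℓ)).comp (algebraMap B ℚ)).toAlgebra
  have hgood' : ∀ v, v ∉ S → IsGood μ U v := fun v hv => (hgood v hv).old
  obtain ⟨r, hr, hr'⟩ := TP.main μ hM hq hcl a a' j hj.range hj.coatom hj.stab hj.act hU hK hUP S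
    hSl hgood' hO A hA hS φ hφ hO' (toQ A') π ν hL.isLevi (satOld sat) hT.old
    (fun v => (⟨m v⟩ : Pts O' (PadicAlgCl ℓ))) a₀ (hocc.old hM hgood')
  refine ⟨fun γ => (r γ).left.hom, isLHom_of_hom A' r hr.proj, hr.cont, ?_, ?_⟩
  · intro v hv P u hu f
    change (r u).left.hom f = _
    rw [(hr' v hv).1 P u hu]
    rfl
  · intro i
    exact (hr' i.v i.hv).2 ⟨i.f, (isInvQ_iff A' (φ i.v) i.f).1 i.hf⟩

end Pool.Agent.Lib.MP_666dc0_nt.TL
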